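import Pool.Agent.T9h90.SP.Spec

set_option autoImplicit false

/-! Piece (DI): the dichotomy. -/

namespace Pool.Agent.T9h66.SP

open Pool.Agent.Helper617.RM Pool.Agent.T9h90.SP

universe u

theorem bool_eq : ∀ b c : Bool, b ≠ (!c) → b = c := by decide

theorem bool_ne : ∀ b c : Bool, b ≠ c → b = (!c) := by decide

theorem size_pos (p : Sep) : 0 < p.size := by
  induction p with
  | one => exact Nat.one_pos
  | node c a b iha ihb => exact Nat.add_pos_left iha _

theorem unb_mono {M : Type u} [LT M] {H H' : Set M} (h : H' ⊆ H) (hu : Unb H') : Unb H := by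
  intro b
  obtain ⟨y, hy, hb⟩ := hu b
  exact ⟨y, h hy, hb⟩

theorem copy_mono {M : Type u} [LT M] {f : M → M → Bool} {H H' : Set M} {p : Sep} {x : ℕ → M}
    (h : H' ⊆ H) (hc : Copy f H' p x) : Copy f H p x :=
  ⟨fun i hi => h (hc.1 i hi), hc.2⟩

theorem nc_mono {M : Type u} [LT M] {f : M → M → Bool} {c : Bool} {H H' : Set M} {n : ℕ}
    {x : ℕ → M} (h : H' ⊆ H) : Nc f c H' n x ⊆ Nc f c H n x :=
  fun _ hw => ⟨h hw.1, hw.2⟩

variable {N : L2Structure.{u}} [IsModelRCA0 N]

theorem no_mono {f : N.M → N.M → Bool} {c : Bool} {H H' : Set N.M} {p : Sep}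
    (h : H' ⊆ H) (hn : No f H c p) : No f H' c p :=
  fun x hx hu => hn x (copy_mono h hx) (unb_mono (nc_mono h) hu)

theorem not_str {f : N.M → N.M → Bool} {c : Bool} {H : Set N.M} {p : Sep}
    (h : ¬ Str f H c p) : ∃ H' ∈ N.Sets, H' ⊆ H ∧ Unb H' ∧ No f H' c p := by
  unfold Str at h
  push Not at h
  obtain ⟨H', h1, h2, h3, h4⟩ := h
  exact ⟨H', h1, h2, h3, fun x hx => h4 x hx⟩

theorem di : S_CL.{u} → S_HM.{u} → S_LT.{u} → S_DI.{u} := by
  intro hCL hHM hLT N _ f hf hB hBad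
  by_contra hcon
  push Not at hcon
  obtain ⟨⟨a0, ha0, hs0⟩, hcon2⟩ := hcon
  obtain ⟨H1, hH1, -, hU1, hN1⟩ := not_str hs0
  obtain ⟨b0, hb0, hs1⟩ := hcon2 H1 hH1 hU1
  obtain ⟨H2, hH2, h21, hU2, hN2⟩ := not_str hs1
  have hN1' : No f H2 true a0 := no_mono h21 hN1
  have hex : ∃ n : ℕ, ∃ H3 ∈ N.Sets, H3 ⊆ H2 ∧ Unb H3 ∧ ∃ c a, Spine a ∧ No f H3 c a ∧
      a.size = n := ⟨a0.size, H2, hH2, le_refl _, hU2, true, a0, ha0, hN1', rfl⟩
  classical
  obtain ⟨H3, hH3, h32, hU3, c, a, hSa, hNa, hsz⟩ := Nat.find_spec hex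
  have hmin : ∀ a' : Sep, Spine a' → a'.size < a.size → ∀ e : Bool, Str f H3 e a' := by
    intro a' ha' hlt e
    by_contra hs
    obtain ⟨H', hH', h'3, hU', hN'⟩ := not_str hs
    refine Nat.find_min hex (m := a'.size) (by rw [← hsz]; exact hlt) ?_
    exact ⟨H', hH', h'3.trans h32, hU', e, a', ha', hN', rfl⟩
  cases hSa with
  | one =>
    have hth : ∀ x ∈ H3, ∃ b, ∀ w ∈ H3, b ≤ w → f x w = !c := by
      intro x hx
      have h1 : Copy f H3 Sep.one (fun _ => x) := by
        refine ⟨fun _ _ => hx, ?_⟩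
        intro i j hij hj
        simp only [Sep.size] at hj
        omega
      have h2 := hNa _ h1
      unfold Unb at h2
      push Not at h2
      obtain ⟨b, hb⟩ := h2
      obtain ⟨y, -, hy⟩ := hU3 (max b x)
      refine ⟨y, fun w hw hyw => ?_⟩
      have hxw : x < w := lt_of_le_of_lt (le_max_right b x) (lt_of_lt_of_le hy hyw)
      have hbw : b < w := lt_of_le_of_lt (le_max_left b x) (lt_of_lt_of_le hy hyw)
      by_contra hne
      have hc : f x w = c := bool_eq _ _ hne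
      exact absurd (hb w ⟨hw, fun i _ => ⟨hxw, hc⟩⟩) (not_le.mpr hbw)
    obtain ⟨H', hH', -, hU', hhom⟩ := hHM N f hf hB (!c) H3 hH3 hU3 hth
    exact hBad H' hH' hU' (!c) hhom
  | node d a' ha' =>
    have hsize : (Sep.node d .one a').size = 1 + a'.size := rfl
    have hp := size_pos a'
    have hst : ∀ e, Str f H3 e a' := fun e => hmin a' ha' (by rw [hsize]; omega) e
    have hst1 : ∀ e, Str f H3 e .one := fun e => hmin .one Spine.one (by
      rw [hsize]; show 1 < 1 + a'.size; omega) e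
    by_cases hdc : d = c
    · subst hdc
      have h1 := (hCL N f hf H3 d .one a' (hst1 d)).2 (hst d)
      obtain ⟨x, hx, hu⟩ := h1 H3 hH3 (le_refl _) hU3
      exact hNa x hx hu
    · have hd : d = !c := bool_ne _ _ hdc
      subst hd
      have hRe : ∀ b, Spine b → Re f H3 (b.infl a') := by
        intro b hb
        induction hb with
        | one =>
          intro H' hH' hs hu
          obtain ⟨x, hx, -⟩ := hst true H' hH' hs hu
          exact ⟨x, hx⟩
        | node e b' hb' ih =>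
          exact (hCL N f hf H3 e a' (b'.infl a') (hst e)).1 ih
      have hb : ∃ b, Spine b ∧ No f H3 (!c) b := by
        cases c with
        | false => exact ⟨a0, ha0, no_mono h32 hN1'⟩
        | true => exact ⟨b0, hb0, no_mono h32 hN2⟩
      obtain ⟨b, hSb, hNb⟩ := hb
      exact hLT N f hf hB hBad c H3 hH3 hU3 b a' hNb hNa (hRe b hSb)

end Pool.Agent.T9h66.SP
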