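import Pool.Agent.T9h90.SP.Defs

set_option autoImplicit false

/-! (EX4): every separable permutation of size at most 4, up to two, is in `Good c` for a colour `c`
(in a suitable way of writing it). -/

namespace Pool.Agent.T9h66.SP.EX4

open Pool.Agent.T9h90.SP

def spb : Sep → Bool
  | .one => true
  | .node _ .one a => spb a
  | .node _ (.node _ _ _) _ => false

def isOne : Sep → Bool
  | .one => true
  | .node _ _ _ => false

def goodb (c : Bool) : Sep → Bool
  | .one => true
  | .node d a v => ((d == c && spb a) || (d == !c && isOne a)) && goodb c v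

theorem spb_sound (p : Sep) (h : spb p = true) : Spine p := by
  induction p with
  | one => exact Spine.one
  | node c a b iha ihb =>
    cases a with
    | one => exact Spine.node c b (ihb h)
    | node d a1 a2 => simp [spb] at h

theorem goodb_sound (c : Bool) (p : Sep) (h : goodb c p = true) : Good c p := by
  induction p with
  | one => exact Good.one
  | node d a b iha ihb =>
    simp only [goodb, Bool.and_eq_true, Bool.or_eq_true, beq_iff_eq] at h
    obtain ⟨h1, h2⟩ := h
    rcases h1 with ⟨rfl, h1⟩ | ⟨rfl, h1⟩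
    · exact Good.same a b (spb_sound a h1) (ihb h2)
    · cases a with
      | one => exact Good.opp b (ihb h2)
      | node d a1 a2 => simp [isOne] at h1

def nd (A B : List Sep) : List Sep :=
  A.flatMap fun a => B.flatMap fun b => [Sep.node true a b, Sep.node false a b]

theorem mem_nd {A B : List Sep} {a b : Sep} (ha : a ∈ A) (hb : b ∈ B) (c : Bool) :
    Sep.node c a b ∈ nd A B := by
  simp only [nd, List.mem_flatMap]
  refine ⟨a, ha, b, hb, ?_⟩
  cases c <;> simp

def t1 : List Sep := [.one]
def t2 : List Sep := nd t1 t1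
def t3 : List Sep := nd t1 t2 ++ nd t2 t1
def t4 : List Sep := nd t1 t3 ++ (nd t2 t2 ++ nd t3 t1)

theorem size_pos (p : Sep) : 0 < p.size := by
  induction p with
  | one => exact Nat.one_pos
  | node c a b iha ihb => exact Nat.add_pos_left iha _

theorem m1 (p : Sep) (h : p.size = 1) : p ∈ t1 := by
  cases p with
  | one => simp [t1]
  | node c a b =>
    have := size_pos a
    have := size_pos b
    have h' : a.size + b.size = 1 := h
    omega

theorem m2 (p : Sep) (h : p.size = 2) : p ∈ t2 := by
  cases p with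
  | one => exact absurd (show (1 : ℕ) = 2 from h) (by omega)
  | node c a b =>
    have := size_pos a
    have := size_pos b
    have h' : a.size + b.size = 2 := h
    exact mem_nd (m1 a (by omega)) (m1 b (by omega)) c

theorem m3 (p : Sep) (h : p.size = 3) : p ∈ t3 := by
  cases p with
  | one => exact absurd (show (1 : ℕ) = 3 from h) (by omega)
  | node c a b =>
    have := size_pos a
    have := size_pos b
    have h' : a.size + b.size = 3 := h
    have h'' : a.size = 1 ∨ a.size = 2 := by omega
    rcases h'' with h1 | h1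
    · exact List.mem_append_left _ (mem_nd (m1 a h1) (m2 b (by omega)) c)
    · exact List.mem_append_right _ (mem_nd (m2 a h1) (m1 b (by omega)) c)

theorem m4 (p : Sep) (h : p.size = 4) : p ∈ t4 := by
  cases p with
  | one => exact absurd (show (1 : ℕ) = 4 from h) (by omega)
  | node c a b =>
    have := size_pos a
    have := size_pos b
    have h' : a.size + b.size = 4 := h
    have h'' : a.size = 1 ∨ a.size = 2 ∨ a.size = 3 := by omega
    rcases h'' with h1 | h1 | h1
    · exact List.mem_append_left _ (mem_nd (m1 a h1) (m3 b (by omega)) c)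
    · exact List.mem_append_right _ (List.mem_append_left _ (mem_nd (m2 a h1) (m2 b (by omega)) c))
    · exact List.mem_append_right _ (List.mem_append_right _ (mem_nd (m3 a h1) (m1 b (by omega)) c))

theorem d1 : ∀ p ∈ t1, ∃ c ∈ [true, false], ∃ q ∈ t1, goodb c q = true ∧ q.size = p.size ∧
    ∀ i, i < p.size → q.val i = p.val i := by decide +kernel

theorem d2 : ∀ p ∈ t2, ∃ c ∈ [true, false], ∃ q ∈ t2, goodb c q = true ∧ q.size = p.size ∧
    ∀ i, i < p.size → q.val i = p.val i := by decide +kernel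

theorem d3 : ∀ p ∈ t3, ∃ c ∈ [true, false], ∃ q ∈ t3, goodb c q = true ∧ q.size = p.size ∧
    ∀ i, i < p.size → q.val i = p.val i := by decide +kernel

theorem d4 : ∀ p ∈ t4,
    (p.size = 4 ∧ p.val 0 = 1 ∧ p.val 1 = 2 ∧ p.val 2 = 0 ∧ p.val 3 = 3) ∨
    (p.size = 4 ∧ p.val 0 = 2 ∧ p.val 1 = 1 ∧ p.val 2 = 3 ∧ p.val 3 = 0) ∨
    ∃ c ∈ [true, false], ∃ q ∈ t4, goodb c q = true ∧ q.size = p.size ∧
      ∀ i, i < p.size → q.val i = p.val i := by decide +kernel

theorem ex4 (p : Sep) (h : p.size ≤ 4)
    (h1 : ¬ (p.size = 4 ∧ p.val 0 = 1 ∧ p.val 1 = 2 ∧ p.val 2 = 0 ∧ p.val 3 = 3))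
    (h2 : ¬ (p.size = 4 ∧ p.val 0 = 2 ∧ p.val 1 = 1 ∧ p.val 2 = 3 ∧ p.val 3 = 0)) :
    ∃ (c : Bool) (q : Sep), q.size = p.size ∧ (∀ i, i < p.size → q.val i = p.val i) ∧
      Good c q := by
  have hp := size_pos p
  have hc : p.size = 1 ∨ p.size = 2 ∨ p.size = 3 ∨ p.size = 4 := by omega
  have key : ∃ c ∈ [true, false], ∃ q : Sep, goodb c q = true ∧ q.size = p.size ∧
      ∀ i, i < p.size → q.val i = p.val i := by
    rcases hc with hc | hc | hc | hc
    · obtain ⟨c, hc, q, -, hq⟩ := d1 p (m1 p hc)
      exact ⟨c, hc, q, hq⟩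
    · obtain ⟨c, hc, q, -, hq⟩ := d2 p (m2 p hc)
      exact ⟨c, hc, q, hq⟩
    · obtain ⟨c, hc, q, -, hq⟩ := d3 p (m3 p hc)
      exact ⟨c, hc, q, hq⟩
    · rcases d4 p (m4 p hc) with h3 | h3 | ⟨c, hc, q, -, hq⟩
      · exact absurd h3 h1
      · exact absurd h3 h2
      · exact ⟨c, hc, q, hq⟩
  obtain ⟨c, -, q, hq1, hq2, hq3⟩ := key
  exact ⟨c, q, hq2, hq3, goodb_sound c q hq1⟩

end Pool.Agent.T9h66.SP.EX4
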